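import Pool.Agent.H61.TreeRoot

set_option autoImplicit false

namespace Pool.Agent.Results.MP_274e27_gt.RootFixed

open Pool.Agent.H61.TreeLimit

/-- The root `r` of the limit exists, its class is the unique point at which the realization is
connected im kleinen, and hence every homeomorphism fixes this point. -/
theorem result (F : ℕ → RTree) (α : ∀ n, (F (n + 1)).V → (F n).V)
    (hF : IsFraisseSequence F α) :
    ∃ r : Limit F α, (∀ n, r.1 n = (F n).root) ∧
      (∀ x : Realization F α, CIK x ↔ x = proj r) ∧
      ∀ h : Realization F α ≃ₜ Realization F α, h (proj r) = proj r :=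
  Pool.Agent.H61.TreeLimit.main F α hF

end Pool.Agent.Results.MP_274e27_gt.RootFixed
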